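import Pool.Agent.H37.Cyl2

namespace Pool.Agent.Results.MP_c9c291_lc.No

open Pool.Agent.H37.Cyl

theorem result : ∃ 𝓛 : Set Lang, Principal AgsmInv 𝓛 ∧ Principal COp 𝓛 ∧
    (∃ M ∈ 𝓛, T M ∉ 𝓛) ∧ ∃ M ∈ 𝓛, ¬ M.L.IsRegular :=
  ⟨Fam, principal_agsm, principal_C, ⟨M2, M2_mem, not_closed⟩, L0, L0_mem, L0_nonreg⟩

end Pool.Agent.Results.MP_c9c291_lc.No
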